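import Pool.Agent.Helper64.BT.Exact

/-!
# BTN, piece NF1: the bound in one orbit for programs with few computations

Here a side has at most `K1` (`K2`) sets of free symbols at every point, `W1 x`, `W2 x` are the chosen ones at the
points `x` of `E`.
-/

set_option autoImplicit false
set_option linter.unusedSectionVars false

namespace Pool.Agent.Helper96.BTN

open Finset Pool.Agent.Helper19.NF Pool.Agent.Helper74.NW Pool.Agent.Helper96.BT
open Pool.Agent.Helper74.NE (fine fine_apply)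
open Pool.Agent.Helper99.NQ (pos)
open Pool.Agent.Helper64.BT (fixed_bound flip_ne_zero card_choice)

variable {n D m : ℕ} [NeZero m] {F B W : Type} [Field F] [Fintype F] [AddCommGroup B] [AddCommGroup W]
  [Module F W] [Fintype W] [Fintype B] (enc : W →+ (Fin D × Fin m → B))

open Classical in
/-- NF1: the bound in one orbit. -/
theorem exact_bound (hE : Mds enc (4 * D)) (g : Fin D → Equiv.Perm (Fin n)) (h1 h2 : Fin n → Fin D × Fin m)
    (cell t0 : Fin n × Fin m → B) (h e T K1 K2 : ℕ) (E : Finset (Ch n m F W))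
    (V1 : Fin K1 → Ch n m F W → Finset (B × W)) (V2 : Fin K2 → Ch n m F W → Finset (B × W))
    (W1 W2 : Ch n m F W → Finset (B × W))
    (cl1 : ∀ x ∈ E, ∀ x', (∀ p l, x' p l ≠ x p l → l ∈ left cell (W1 x) p) → ∃ k, V1 k x' = W1 x)
    (cl2 : ∀ x ∈ E, ∀ x', (∀ p l, x' p l ≠ x p l → l ∈ left cell (W2 x) p) → ∃ k, V2 k x' = W2 x)
    (A : Finset (Fin n))
    (hT : ∀ x ∈ E, Fintype.card (B × W) ≤ (W1 x ∩ W2 x).card + T)
    (hfull : ∀ x ∈ E, ∀ u ∈ A,
      (univ.filter (fun t => h ≤ gap (W1 x ∩ W2 x) (t0 (u, t) + lam enc g x (u, t)))).card ≤ e)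
    (hJ1 : ∀ x ∈ E, ∀ u ∈ A, h ≤ (left cell (W1 x) (pos g h1 u)).card)
    (hJ2 : ∀ x ∈ E, ∀ u ∈ A, h ≤ (left cell (W2 x) (pos g h2 u)).card) (hh : 0 < h) (r : ℝ) (hr : 0 < r)
    (hrT : (T : ℝ) ≤ (1 - r) * Fintype.card (B × W))
    (hrh : (m * h + e * Fintype.card W : ℝ) ≤ m * Fintype.card W * r / 2) :
    (E.card : ℝ) ≤ (K1 * K2) * ((1 / ((h : ℝ) / Fintype.card W)) ^ (2 * A.card) *
      (4 * (m + 2) / (m * r) ^ 2) ^ A.card * Nat.card (Ch n m F W)) := by
  set L := Fintype.card W with hL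
  -- the changes for one point
  let S1 : Ch n m F W → Finset (Fin n → W) := fun x =>
    univ.filter fun b => ∀ u ∈ A, b u ∈ left cell (W1 x) (pos g h1 u)
  let S2 : Ch n m F W → Finset (Fin n → W) := fun x =>
    univ.filter fun b => ∀ u ∈ A, b u ∈ left cell (W2 x) (pos g h2 u)
  let Q : Ch n m F W × Fin K1 × Fin K2 → Finset ((Fin n → W) × (Fin n → W)) := fun y =>
    univ.filter (fun b : (Fin n → W) × (Fin n → W) =>
      Fintype.card (B × W) ≤
        (V1 y.2.1 (y.1 + Pool.Agent.Helper96.BT.flip g h2 A b.2) ∩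
          V2 y.2.2 (y.1 + Pool.Agent.Helper96.BT.flip g h1 A b.1)).card + T ∧
      ∀ u ∈ A, (univ.filter (fun t => h ≤ gap
          (V1 y.2.1 (y.1 + Pool.Agent.Helper96.BT.flip g h2 A b.2) ∩
            V2 y.2.2 (y.1 + Pool.Agent.Helper96.BT.flip g h1 A b.1))
          (t0 (u, t) + lam enc g (y.1 + Pool.Agent.Helper96.BT.flip g h1 A b.1 +
            Pool.Agent.Helper96.BT.flip g h2 A b.2) (u, t)))).card ≤ e)
  have hQ : ∀ y, ((Q y).card : ℝ) ≤ (4 * (m + 2) / (m * r) ^ 2) ^ A.card *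
      (Fintype.card (Fin n → W) * Fintype.card (Fin n → W)) := fun y =>
    fixed_bound enc hE g h1 h2 t0 h e T (V1 y.2.1) (V2 y.2.2) A r hr hrT hrh y.1
  -- the numbers of the sets
  have hk1 : ∀ x, ∀ b : Fin n → W, x ∈ E → (∀ u ∈ A, b u ∈ left cell (W1 x) (pos g h1 u)) →
      ∃ k, V1 k (x - Pool.Agent.Helper96.BT.flip g h1 A b) = W1 x := by
    intro x b hx h5
    refine cl1 x hx _ ?_
    intro p l hpl
    have h9 : Pool.Agent.Helper96.BT.flip (F := F) g h1 A b p l ≠ 0 := by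
      intro h10
      refine hpl ?_
      rw [Pi.sub_apply, Pi.sub_apply, h10, sub_zero]
    obtain ⟨u, hu, h10, h11⟩ := flip_ne_zero h9
    have h14 := h5 u hu
    rw [← h10, ← h11]
    exact h14
  have hk2 : ∀ x, ∀ b : Fin n → W, x ∈ E → (∀ u ∈ A, b u ∈ left cell (W2 x) (pos g h2 u)) →
      ∃ k, V2 k (x - Pool.Agent.Helper96.BT.flip g h2 A b) = W2 x := by
    intro x b hx h5
    refine cl2 x hx _ ?_
    intro p l hpl
    have h9 : Pool.Agent.Helper96.BT.flip (F := F) g h2 A b p l ≠ 0 := by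
      intro h10
      refine hpl ?_
      rw [Pi.sub_apply, Pi.sub_apply, h10, sub_zero]
    obtain ⟨u, hu, h10, h11⟩ := flip_ne_zero h9
    have h14 := h5 u hu
    rw [← h10, ← h11]
    exact h14
  by_cases hK : 0 < K1 ∧ 0 < K2
  swap
  · -- no sets
    have hE0 : E = ∅ := by
      rw [Finset.eq_empty_iff_forall_notMem]
      intro x hx
      refine hK ⟨?_, ?_⟩
      · obtain ⟨k, -⟩ := cl1 x hx x fun p l h3 => absurd rfl h3
        exact lt_of_le_of_lt (Nat.zero_le _) k.2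
      · obtain ⟨k, -⟩ := cl2 x hx x fun p l h3 => absurd rfl h3
        exact lt_of_le_of_lt (Nat.zero_le _) k.2
    rw [hE0, card_empty, Nat.cast_zero]
    have h3 : (0 : ℝ) ≤ 4 * (m + 2) / (m * r) ^ 2 := by positivity
    positivity
  have hk1' : ∀ x, ∀ b : Fin n → W, ∃ k : Fin K1, x ∈ E → (∀ u ∈ A, b u ∈ left cell (W1 x) (pos g h1 u)) →
      V1 k (x - Pool.Agent.Helper96.BT.flip g h1 A b) = W1 x := by
    intro x b
    by_cases h3 : x ∈ E ∧ ∀ u ∈ A, b u ∈ left cell (W1 x) (pos g h1 u)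
    · obtain ⟨k, hk⟩ := hk1 x b h3.1 h3.2
      exact ⟨k, fun _ _ => hk⟩
    · exact ⟨⟨0, hK.1⟩, fun h4 h5 => absurd ⟨h4, h5⟩ h3⟩
  have hk2' : ∀ x, ∀ b : Fin n → W, ∃ k : Fin K2, x ∈ E → (∀ u ∈ A, b u ∈ left cell (W2 x) (pos g h2 u)) →
      V2 k (x - Pool.Agent.Helper96.BT.flip g h2 A b) = W2 x := by
    intro x b
    by_cases h3 : x ∈ E ∧ ∀ u ∈ A, b u ∈ left cell (W2 x) (pos g h2 u)
    · obtain ⟨k, hk⟩ := hk2 x b h3.1 h3.2
      exact ⟨k, fun _ _ => hk⟩
    · exact ⟨⟨0, hK.2⟩, fun h4 h5 => absurd ⟨h4, h5⟩ h3⟩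
  choose k1 hk1 using hk1'
  choose k2 hk2 using hk2'
  -- the injection
  have hinj : (E.sigma fun x => S1 x ×ˢ S2 x).card ≤
      ((univ : Finset (Ch n m F W × Fin K1 × Fin K2)).sigma Q).card := by
    refine card_le_card_of_injOn (fun z => ⟨(z.1 - Pool.Agent.Helper96.BT.flip g h1 A z.2.1 -
      Pool.Agent.Helper96.BT.flip g h2 A z.2.2, k1 z.1 z.2.1, k2 z.1 z.2.2), (z.2.1, z.2.2)⟩) ?_ ?_
    · rintro ⟨x, b, b'⟩ hz
      rw [mem_coe, mem_sigma, mem_product, mem_filter, mem_filter] at hz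
      obtain ⟨hx, ⟨-, h5⟩, -, h8⟩ := hz
      simp only at hx h5 h8
      rw [mem_coe, mem_sigma, mem_filter]
      refine ⟨mem_univ _, mem_univ _, ?_⟩
      set f1 : Ch n m F W := Pool.Agent.Helper96.BT.flip g h1 A b with hf1
      set f2 : Ch n m F W := Pool.Agent.Helper96.BT.flip g h2 A b' with hf2
      have a1 : x - f1 - f2 + f2 = x - f1 := sub_add_cancel _ _
      have a2 : x - f1 - f2 + f1 = x - f2 := by
        rw [sub_right_comm, sub_add_cancel]
      have a3 : x - f1 - f2 + f1 + f2 = x := by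
        rw [a2, sub_add_cancel]
      have c1 : V1 (k1 x b) (x - f1) = W1 x := hk1 x b hx h5
      have c2 : V2 (k2 x b') (x - f2) = W2 x := hk2 x b' hx h8
      show _ ≤ (V1 (k1 x b) (x - f1 - f2 + f2) ∩ V2 (k2 x b') (x - f1 - f2 + f1)).card + T ∧
        ∀ u ∈ A, (univ.filter (fun t => h ≤ gap (V1 (k1 x b) (x - f1 - f2 + f2) ∩
            V2 (k2 x b') (x - f1 - f2 + f1))
          (t0 (u, t) + lam enc g (x - f1 - f2 + f1 + f2) (u, t)))).card ≤ e
      rw [a3, a1, a2, c1, c2]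
      exact ⟨hT x hx, hfull x hx⟩
    · rintro ⟨x, b, b'⟩ - ⟨y, c, c'⟩ - hzz
      simp only [Sigma.mk.injEq, Prod.mk.injEq, heq_eq_eq] at hzz
      obtain ⟨⟨h3, -, -⟩, h4, h5⟩ := hzz
      subst h4 h5
      have h8 : x = y := by
        rw [sub_left_inj, sub_left_inj] at h3
        exact h3
      rw [h8]
  -- the counts
  have hS1 : ∀ x ∈ E, h ^ A.card * L ^ (n - A.card) ≤ (S1 x).card := fun x hx =>
    card_choice (fun u => left cell (W1 x) (pos g h1 u)) A h (hJ1 x hx)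
  have hS2 : ∀ x ∈ E, h ^ A.card * L ^ (n - A.card) ≤ (S2 x).card := fun x hx =>
    card_choice (fun u => left cell (W2 x) (pos g h2 u)) A h (hJ2 x hx)
  have hlow : E.card * (h ^ A.card * L ^ (n - A.card)) ^ 2 ≤ (E.sigma fun x => S1 x ×ˢ S2 x).card := by
    rw [card_sigma, ← smul_eq_mul, ← sum_const]
    refine sum_le_sum fun x hx => ?_
    rw [card_product, sq]
    exact Nat.mul_le_mul (hS1 x hx) (hS2 x hx)
  have hup : (((univ : Finset (Ch n m F W × Fin K1 × Fin K2)).sigma Q).card : ℝ) ≤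
      K1 * K2 * (Fintype.card (Ch n m F W) * ((4 * (m + 2) / (m * r) ^ 2) ^ A.card * ((L : ℝ) ^ n) ^ 2)) := by
    rw [card_sigma, Nat.cast_sum]
    have hcard : ((Fintype.card (Fin n → W) : ℝ) * Fintype.card (Fin n → W)) = ((L : ℝ) ^ n) ^ 2 := by
      rw [Fintype.card_fun, Fintype.card_fin]
      push_cast
      ring
    calc ∑ x0 : Ch n m F W × Fin K1 × Fin K2, ((Q x0).card : ℝ) ≤
          ∑ _x0 : Ch n m F W × Fin K1 × Fin K2, (4 * (m + 2) / (m * r) ^ 2) ^ A.card * ((L : ℝ) ^ n) ^ 2 :=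
          sum_le_sum fun x0 _ => by
            rw [← hcard]
            exact hQ x0
      _ = _ := by
          rw [sum_const, card_univ, nsmul_eq_mul, Fintype.card_prod, Fintype.card_prod, Fintype.card_fin,
            Fintype.card_fin]
          push_cast
          ring
  have hmain : (E.card : ℝ) * ((h : ℝ) ^ A.card * (L : ℝ) ^ (n - A.card)) ^ 2 ≤
      K1 * K2 * (Fintype.card (Ch n m F W) * ((4 * (m + 2) / (m * r) ^ 2) ^ A.card * ((L : ℝ) ^ n) ^ 2)) := by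
    refine le_trans ?_ hup
    have h3 := (Nat.cast_le (α := ℝ)).2 (hlow.trans hinj)
    push_cast at h3
    exact h3
  have hAn : A.card ≤ n := by
    have := card_le_univ A
    rwa [Fintype.card_fin] at this
  have hLpos : (0 : ℝ) < L := Nat.cast_pos.2 (Fintype.card_pos_iff.2 ⟨0⟩)
  have hhpos : (0 : ℝ) < h := Nat.cast_pos.2 hh
  have hLn : (L : ℝ) ^ n = (L : ℝ) ^ A.card * (L : ℝ) ^ (n - A.card) := by
    rw [← pow_add, Nat.add_sub_cancel' hAn]
  rw [hLn] at hmain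
  have hLp : (0 : ℝ) < ((L : ℝ) ^ (n - A.card)) ^ 2 := by positivity
  have hh2 : (0 : ℝ) < ((h : ℝ) ^ A.card) ^ 2 := by positivity
  have h4 : (E.card : ℝ) * ((h : ℝ) ^ A.card) ^ 2 ≤
      K1 * K2 * (Fintype.card (Ch n m F W) * ((4 * (m + 2) / (m * r) ^ 2) ^ A.card * ((L : ℝ) ^ A.card) ^ 2)) := by
    refine le_of_mul_le_mul_right ?_ hLp
    calc (E.card : ℝ) * ((h : ℝ) ^ A.card) ^ 2 * ((L : ℝ) ^ (n - A.card)) ^ 2 =
        (E.card : ℝ) * ((h : ℝ) ^ A.card * (L : ℝ) ^ (n - A.card)) ^ 2 := by ring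
      _ ≤ _ := hmain
      _ = _ := by ring
  rw [← le_div_iff₀ hh2] at h4
  refine h4.trans (le_of_eq ?_)
  have h5 : ((L : ℝ) / h) ^ (2 * A.card) = ((L : ℝ) ^ A.card) ^ 2 / ((h : ℝ) ^ A.card) ^ 2 := by
    rw [div_pow, pow_mul' (L : ℝ) 2 A.card, pow_mul' (h : ℝ) 2 A.card]
  rw [Nat.card_eq_fintype_card, one_div, inv_div, h5]
  ring

end Pool.Agent.Helper96.BTN
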