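import Pool.Agent.Helper17.BT.RunL

/-!
# BTN: programs with few computations between two states
-/

set_option autoImplicit false
set_option linter.unusedSectionVars false

namespace Pool.Agent.Helper96.BTN

open Finset Pool.Agent.Helper74.NW Pool.Agent.Helper96.BT

variable {C X Z : Type} {S : ℕ}

/-- On every input, at most `M` lists of `k` queries belong to computations from the state `a` to the state `b`. -/
def Few (P : NProg C X Z S) (M : ℕ) : Prop :=
  ∀ (I : C → X) (a b : Fin S) (k : ℕ), Nat.card {l : List C // l.length = k ∧ P.Run I a l b} ≤ M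

variable {P : NProg C X Z S} {M : ℕ}

/-- The lists of the queries of the runs with the pieces `L` are finite in number. -/
theorem runL_card [Finite C] (hM : Few P M) (I : C → X) (L : List (Fin S × ℕ × Fin S)) :
    Finite {c : List C // RunL P I L c} ∧ Nat.card {c : List C // RunL P I L c} ≤ M ^ L.length := by
  classical
  haveI := Fintype.ofFinite C
  induction L with
  | nil =>
    have h1 : ∀ c : List C, RunL P I [] c ↔ c = [] := by
      intro c
      constructor
      · intro h
        cases h
        rfl
      · rintro rfl
        exact RunL.nil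
    have h2 : Subsingleton {c : List C // RunL P I [] c} :=
      ⟨fun a b => Subtype.ext (((h1 _).1 a.2).trans ((h1 _).1 b.2).symm)⟩
    refine ⟨inferInstance, ?_⟩
    rw [List.length_nil, pow_zero]
    exact Finite.card_le_one_iff_subsingleton.2 h2
  | cons p L ih =>
    obtain ⟨s, k, t⟩ := p
    obtain ⟨ih1, ih2⟩ := ih
    have hfin : Finite {l : List C // l.length = k ∧ P.Run I s l t} :=
      ((List.finite_length_eq C k).subset (fun l (h : l.length = k ∧ P.Run I s l t) => h.1)).to_subtype
    have hw : ∀ c : {c : List C // RunL P I ((s, k, t) :: L) c}, ∃ q : {l : List C // l.length = k ∧ P.Run I s l t} ×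
        {c : List C // RunL P I L c}, c.1 = q.1.1 ++ q.2.1 := by
      rintro ⟨c, hc⟩
      cases hc with
      | cons s t k L c c' h1 h2 h3 => exact ⟨(⟨c, h2, h1⟩, ⟨c', h3⟩), rfl⟩
    choose q hq using hw
    have hinj : Function.Injective q := fun a b h => Subtype.ext (by rw [hq a, hq b, h])
    refine ⟨Finite.of_injective q hinj, ?_⟩
    refine (Nat.card_le_card_of_injective q hinj).trans ?_
    rw [Nat.card_prod, List.length_cons, pow_succ, mul_comm]
    exact Nat.mul_le_mul ih2 (hM I s t k)

/-- The lists of the queries of the runs with the pieces `L` can be numbered. -/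
theorem runL_enum [Finite C] (hM : Few P M) (I : C → X) (L : List (Fin S × ℕ × Fin S)) :
    ∃ f : Fin (M ^ L.length) → List C, ∀ c, RunL P I L c → ∃ k, f k = c := by
  classical
  obtain ⟨h1, h2⟩ := runL_card hM I L
  haveI := Fintype.ofFinite {c : List C // RunL P I L c}
  have h3 : Fintype.card {c : List C // RunL P I L c} ≤ Fintype.card (Fin (M ^ L.length)) := by
    rw [Fintype.card_fin, ← Nat.card_eq_fintype_card]
    exact h2
  obtain ⟨e⟩ := Function.Embedding.nonempty_of_card_le h3
  refine ⟨fun k => if h : ∃ c : {c : List C // RunL P I L c}, e c = k then h.choose.1 else [], fun c hc => ⟨e ⟨c, hc⟩, ?_⟩⟩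
  have h4 : ∃ c' : {c : List C // RunL P I L c}, e c' = e ⟨c, hc⟩ := ⟨_, rfl⟩
  show (if h : ∃ c' : {c : List C // RunL P I L c}, e c' = e ⟨c, hc⟩ then h.choose.1 else []) = c
  rw [dif_pos h4]
  have h5 := e.injective h4.choose_spec
  exact congrArg Subtype.val h5

end Pool.Agent.Helper96.BTN
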