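import Pool.Agent.Helper12.BT.InH
import Pool.Agent.Helper96.BTN.Exact
import Pool.Agent.Helper96.BTN.Runs

/-!
# BTN, piece NF2: the inputs of one type with given holes
-/

set_option autoImplicit false
set_option linter.unusedSectionVars false

namespace Pool.Agent.Helper96.BTN

open Finset Pool.Agent.Helper19.NF Pool.Agent.Helper74.NW Pool.Agent.Helper96.BT
open Pool.Agent.Helper74.NE (fine fine_apply)
open Pool.Agent.Helper99.NQ (pos)
open Pool.Agent.Helper66.BT (val_act_succ val_act average2)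
open Pool.Agent.Helper17.BT (runL_congr)
open Pool.Agent.Helper12.BT (mem_free' free_append' act_congr')

variable {n D m S : ℕ} [NeZero m] {F B W Z : Type} [Field F] [Fintype F] [AddCommGroup B] [AddCommGroup W]
  [Module F W] [Fintype W] [Fintype B] (enc : W →+ (Fin D × Fin m → B))

/-- The bound for one orbit. -/
theorem orbit_inH (hE : Mds enc (4 * D)) (P : NProg (B × W) F Z S) {M : ℕ} (hM : Few P M) (g : Fin D → Equiv.Perm (Fin n))
    (x0 : Fin n × Fin m → B) (h e T i : ℕ) (L1 L2 : List (Fin S × ℕ × Fin S)) (A : Finset (Fin n))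
    (h1 h2 : Fin n → Fin D × Fin m) (hh : 0 < h) (r : ℝ) (hr : 0 < r)
    (hrT : (T : ℝ) ≤ (1 - r) * Fintype.card (B × W))
    (hrh : (m * h + e * Fintype.card W : ℝ) ≤ m * Fintype.card W * r / 2)
    (I : B × W → F) (hI : CF (fine g) x0 i (tab enc I)) :
    (Nat.card {x : Ch n m F W // InH P enc g x0 h e T i L1 L2 A h1 h2 (act enc g x0 i I x)} : ℝ) ≤
      ((M ^ L1.length : ℕ) * (M ^ L2.length : ℕ)) * ((1 / ((h : ℝ) / Fintype.card W)) ^ (2 * A.card) *
        (4 * (m + 2) / (m * r) ^ 2) ^ A.card * Nat.card (Ch n m F W)) := by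
  classical
  set cell : Fin n × Fin m → B := val (fine g) x0 (tab enc I) i with hcell
  set t0 : Fin n × Fin m → B := val (fine g) x0 (tab enc I) (i + 1) with ht0
  let E : Finset (Ch n m F W) := univ.filter fun x => InH P enc g x0 h e T i L1 L2 A h1 h2 (act enc g x0 i I x)
  have hE0 : ∀ x, x ∈ E ↔ InH P enc g x0 h e T i L1 L2 A h1 h2 (act enc g x0 i I x) := fun x => by
    show x ∈ univ.filter _ ↔ _
    rw [mem_filter]
    exact and_iff_right (mem_univ _)
  have hw : ∀ x, ∃ c1 c2 : List (B × W), x ∈ E → RunL P (act enc g x0 i I x) L1 c1 ∧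
      RunL P (act enc g x0 i I x) L2 c2 ∧
      Fintype.card (B × W) ≤ (free c1 ∩ free c2).card + T ∧
      (∀ u ∈ A, (univ.filter (fun t =>
        h ≤ gap (free c1 ∩ free c2) (t0 (u, t) + lam enc g x (u, t)))).card ≤ e) ∧
      (∀ u ∈ A, h ≤ gap (free c1) (cell (pos g h1 u))) ∧
      (∀ u ∈ A, h ≤ gap (free c2) (cell (pos g h2 u))) := by
    intro x
    by_cases hx : x ∈ E
    · obtain ⟨d1, d2, r1, r2, q1, q2, q3, q4⟩ := ((hE0 x).1 hx).run
      rw [free_append'] at q1 q2
      refine ⟨d1, d2, fun _ => ⟨r1, r2, q1, ?_, ?_, ?_⟩⟩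
      · intro u hu
        have h3 := q2 u hu
        unfold full at h3
        rw [mem_filter] at h3
        refine le_trans (le_of_eq ?_) h3.2
        congr 1
        refine filter_congr fun t _ => ?_
        rw [val_act_succ enc hI x (u, t)]
      · intro u hu
        have h3 := q3 u hu
        rw [val_act hI x le_rfl] at h3
        exact h3
      · intro u hu
        have h3 := q4 u hu
        rw [val_act hI x le_rfl] at h3
        exact h3
    · exact ⟨[], [], fun h => absurd h hx⟩
  choose c1 c2 hrun using hw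
  have he1 := fun x : Ch n m F W => runL_enum hM (act enc g x0 i I x) L1
  have he2 := fun x : Ch n m F W => runL_enum hM (act enc g x0 i I x) L2
  choose f1 hf1 using he1
  choose f2 hf2 using he2
  have hcong : ∀ (x y : Ch n m F W) (c : List (B × W)),
      (∀ p l, y p l ≠ x p l → l ∈ left cell (free c) p) →
      ∀ z ∈ c, act enc g x0 i I y z = act enc g x0 i I x z := by
    intro x y c hy z hz
    refine act_congr' enc g x0 i I y x z fun q hq => ?_
    by_contra hne
    have h3 := hy q z.2 hne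
    unfold left at h3
    rw [mem_filter] at h3
    have h4 := h3.2
    rw [hcell, hq, mem_free'] at h4
    exact h4 hz
  have hcard : Nat.card {x : Ch n m F W // InH P enc g x0 h e T i L1 L2 A h1 h2 (act enc g x0 i I x)} = E.card := by
    rw [Nat.card_eq_fintype_card, Fintype.card_subtype]
  rw [hcard]
  refine exact_bound enc hE g h1 h2 cell t0 h e T (M ^ L1.length) (M ^ L2.length) E
    (fun k x => free (f1 x k)) (fun k x => free (f2 x k)) (fun x => free (c1 x)) (fun x => free (c2 x))
    ?_ ?_ A ?_ ?_ ?_ ?_ hh r hr hrT hrh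
  · intro x hx x' hx'
    have r' : RunL P (act enc g x0 i I x') L1 (c1 x) := runL_congr (hrun x hx).1 (hcong x x' (c1 x) hx')
    obtain ⟨k, hk⟩ := hf1 x' (c1 x) r'
    refine ⟨k, ?_⟩
    show free (f1 x' k) = free (c1 x)
    rw [hk]
  · intro x hx x' hx'
    have r' : RunL P (act enc g x0 i I x') L2 (c2 x) := runL_congr (hrun x hx).2.1 (hcong x x' (c2 x) hx')
    obtain ⟨k, hk⟩ := hf2 x' (c2 x) r'
    refine ⟨k, ?_⟩
    show free (f2 x' k) = free (c2 x)
    rw [hk]
  · intro x hx
    exact (hrun x hx).2.2.1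
  · intro x hx u hu
    exact (hrun x hx).2.2.2.1 u hu
  · intro x hx u hu
    refine ((hrun x hx).2.2.2.2.1 u hu).trans (le_of_eq ?_)
    rfl
  · intro x hx u hu
    refine ((hrun x hx).2.2.2.2.2 u hu).trans (le_of_eq ?_)
    rfl

/-- NF2: the inputs of one type with given holes. -/
theorem card_inH (hE : Mds enc (4 * D)) (P : NProg (B × W) F Z S) {M : ℕ} (hM : Few P M) (g : Fin D → Equiv.Perm (Fin n))
    (x0 : Fin n × Fin m → B) (h e T i : ℕ) (L1 L2 : List (Fin S × ℕ × Fin S)) (A : Finset (Fin n))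
    (h1 h2 : Fin n → Fin D × Fin m) (hh : 0 < h) (r : ℝ) (hr : 0 < r)
    (hrT : (T : ℝ) ≤ (1 - r) * Fintype.card (B × W))
    (hrh : (m * h + e * Fintype.card W : ℝ) ≤ m * Fintype.card W * r / 2) :
    (Nat.card {I // InH P enc g x0 h e T i L1 L2 A h1 h2 I} : ℝ) ≤
      ((M ^ L1.length : ℕ) * (M ^ L2.length : ℕ)) * ((1 / ((h : ℝ) / Fintype.card W)) ^ (2 * A.card) *
        (4 * (m + 2) / (m * r) ^ 2) ^ A.card) * Nat.card (B × W → F) := by
  have h3 := average2 enc g x0 i (fun I => InH P enc g x0 h e T i L1 L2 A h1 h2 I) (fun _ => False)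
    (fun I hI => hI.cf) (fun I hI => hI.elim) 1
    (((M ^ L1.length : ℕ) * (M ^ L2.length : ℕ)) * ((1 / ((h : ℝ) / Fintype.card W)) ^ (2 * A.card) *
      (4 * (m + 2) / (m * r) ^ 2) ^ A.card)) (by positivity)
    (fun I hI => by
      refine (orbit_inH enc hE P hM g x0 h e T i L1 L2 A h1 h2 hh r hr hrT hrh I hI).trans ?_
      rw [← mul_assoc]
      refine le_add_of_nonneg_left (by positivity))
  refine h3.trans (le_of_eq ?_)
  have h4 : Nat.card {I : B × W → F // False} = 0 := by
    have : IsEmpty {I : B × W → F // False} := ⟨fun I => I.2⟩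
    exact Nat.card_of_isEmpty
  rw [h4, Nat.cast_zero, zero_div, zero_add]

end Pool.Agent.Helper96.BTN
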