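import Pool.Agent.Helper92.BT.R4
import Pool.Agent.Helper6.BT.Rec
import Pool.Agent.Helper96.BTN.InH

/-!
# BTN: the first part of the error
-/

set_option autoImplicit false

namespace Pool.Agent.Helper96.BTN

open Finset Pool.Agent.Helper19.NF Pool.Agent.Helper74.NW Pool.Agent.Helper96.BT
open Pool.Agent.Helper74.NE (fine fine_apply)
open Pool.Agent.Helper99.NQ (pos)
open Pool.Agent.Helper96.PH (Det CB opn)
open Pool.Agent.Helper74.NS (Expands)
open Pool.Agent.Helper66.NE (card_le_sum)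
open Pool.Agent.Helper92.BT (pieces exists_pieces ext ext_eq inD_congr)

section net

variable {n D m S : ℕ} [NeZero m] {F B W G Z : Type} [Field F] [Fintype F] [AddCommGroup B] [AddCommGroup W]
  [Module F W] [Fintype W] [Fintype B] (enc : W →+ (Fin D × Fin m → B))

/-- R4 from R1 and R2, with a factor `K`. -/
theorem bad_bound_of (P : NProg (B × W) F Z S) (g : Fin D → Equiv.Perm (Fin n))
    (x0 : Fin n × Fin m → B) (h e T a R q d : ℕ) (ha : 1 ≤ a) (r K : ℝ)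
    (H1 : ∀ I : B × W → F, CF (fine g) x0 R (tab enc I) →
      (∃ (L : List (Fin S × ℕ × Fin S)) (c : List (B × W)), L.length ≤ q ∧
        (∀ p ∈ L, p.2.1 ≤ 2 ^ d) ∧ RunL P I L c ∧ Fintype.card (B × W) ≤ (free c).card + T ∧
        a ≤ (comp enc g x0 h e R I (free c)).card) →
      ∃ i < R, ∃ L1 L2 A s1 s2, L1.length ≤ q ∧ L2.length ≤ q ∧ (∀ p ∈ L1, p.2.1 ≤ 2 ^ d) ∧
        (∀ p ∈ L2, p.2.1 ≤ 2 ^ d) ∧ A.card = a ∧ InD P enc g x0 h e T i L1 L2 A s1 s2 I)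
    (H2 : ∀ i L1 L2 (A : Finset (Fin n)) h1 h2, A.card = a → L1.length ≤ q → L2.length ≤ q →
      (Nat.card {I // InH P enc g x0 h e T i L1 L2 A h1 h2 I} : ℝ) ≤
        K * ((1 / ((h : ℝ) / Fintype.card W)) ^ (2 * A.card) * (4 * (m + 2) / (m * r) ^ 2) ^ A.card) *
          Nat.card (B × W → F)) :
    (Nat.card {I // CF (fine g) x0 R (tab enc I) ∧ ∃ (L : List (Fin S × ℕ × Fin S)) (c : List (B × W)), L.length ≤ q ∧
        (∀ p ∈ L, p.2.1 ≤ 2 ^ d) ∧ RunL P I L c ∧ Fintype.card (B × W) ≤ (free c).card + T ∧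
        a ≤ (comp enc g x0 h e R I (free c)).card} : ℝ) ≤
      K * errA n D m a R S q d e r ((h : ℝ) / Fintype.card W) * Nat.card (B × W → F) := by
  classical
  let V : Type := B × W → F
  let Y : Type := Fin q → Option (Fin S × Fin (2 ^ d + 1) × Fin S)
  let τ : Type := Fin R × {A : Finset (Fin n) // A.card = a} × (Fin a → Fin D) × (Fin a → Fin D) × Y × Y
  let Q : V → Prop := fun I => CF (fine g) x0 R (tab enc I) ∧
    ∃ (L : List (Fin S × ℕ × Fin S)) (c : List (B × W)), L.length ≤ q ∧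
        (∀ p ∈ L, p.2.1 ≤ 2 ^ d) ∧ RunL P I L c ∧ Fintype.card (B × W) ≤ (free c).card + T ∧
        a ≤ (comp enc g x0 h e R I (free c)).card
  let Q' : τ → V → Prop := fun x I => InD P enc g x0 h e T x.1 (pieces x.2.2.2.2.1) (pieces x.2.2.2.2.2)
    x.2.1.1 (ext ha x.2.1.1 x.2.1.2 x.2.2.1) (ext ha x.2.1.1 x.2.1.2 x.2.2.2.1) I
  have hty : ∀ I : V, Q I → ∃ x : τ, Q' x I := by
    rintro I ⟨hI, hI'⟩
    obtain ⟨i, hi, L1, L2, A, s1, s2, hL1, hL2, hk1, hk2, hA, hD⟩ := H1 I hI hI'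
    obtain ⟨f1, hf1⟩ := exists_pieces q L1 hL1 hk1
    obtain ⟨f2, hf2⟩ := exists_pieces q L2 hL2 hk2
    refine ⟨(⟨i, hi⟩, ⟨A, hA⟩, fun j => s1 (A.orderIsoOfFin hA j), fun j => s2 (A.orderIsoOfFin hA j), f1, f2), ?_⟩
    show InD P enc g x0 h e T i (pieces f1) (pieces f2) A _ _ I
    rw [hf1, hf2]
    exact inD_congr enc hD (fun u hu => ext_eq ha A hA s1 hu) fun u hu => ext_eq ha A hA s2 hu
  have hlen : ∀ f : Fin q → Option (Fin S × Fin (2 ^ d + 1) × Fin S), (pieces f).length ≤ q := by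
    intro f
    unfold pieces
    refine (List.length_filterMap_le _ _).trans ?_
    rw [List.length_ofFn]
  set δ : ℝ := K * ((1 / ((h : ℝ) / Fintype.card W)) ^ (2 * a) * (4 * (m + 2) / (m * r) ^ 2) ^ a) *
    Nat.card (B × W → F) with hδ
  have hb : ∀ x : τ, (Nat.card {I : V // Q' x I} : ℝ) ≤ ((m : ℝ) / (e + 1)) ^ (2 * a) * δ := by
    intro x
    have h1 := Pool.Agent.Helper58.BT.card_inD enc P g x0 h e T x.1 (pieces x.2.2.2.2.1) (pieces x.2.2.2.2.2)
      x.2.1.1 (ext ha x.2.1.1 x.2.1.2 x.2.2.1) (ext ha x.2.1.1 x.2.1.2 x.2.2.2.1) δ fun h1 h2 => by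
        have := H2 x.1 (pieces x.2.2.2.2.1) (pieces x.2.2.2.2.2) x.2.1.1 h1 h2 x.2.1.2 (hlen _) (hlen _)
        rwa [x.2.1.2] at this
    rwa [x.2.1.2] at h1
  have hc : Fintype.card τ = R * (n.choose a * (D ^ a * (D ^ a * ((S * ((2 ^ d + 1) * S) + 1) ^ q *
      (S * ((2 ^ d + 1) * S) + 1) ^ q)))) := by
    show Fintype.card (Fin R × {A : Finset (Fin n) // A.card = a} × (Fin a → Fin D) × (Fin a → Fin D) ×
      (Fin q → Option (Fin S × Fin (2 ^ d + 1) × Fin S)) × (Fin q → Option (Fin S × Fin (2 ^ d + 1) × Fin S))) = _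
    simp only [Fintype.card_prod, Fintype.card_fin, Fintype.card_fun, Fintype.card_finset_len, Fintype.card_option]
  calc (Nat.card {I : V // Q I} : ℝ)
      ≤ ((∑ x : τ, Nat.card {I : V // Q' x I} : ℕ) : ℝ) := by
        exact_mod_cast card_le_sum hty
    _ = ∑ x : τ, (Nat.card {I : V // Q' x I} : ℝ) := by
        push_cast
        rfl
    _ ≤ ∑ _x : τ, ((m : ℝ) / (e + 1)) ^ (2 * a) * δ := Finset.sum_le_sum fun x _ => hb x
    _ = K * errA n D m a R S q d e r ((h : ℝ) / Fintype.card W) * Nat.card (B × W → F) := by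
        rw [Finset.sum_const, Finset.card_univ, nsmul_eq_mul, hc, hδ, errA]
        push_cast
        have e1 : ((S : ℝ) ^ 2 * (2 ^ d + 1) + 1) = S * ((2 ^ d + 1) * S) + 1 := by ring
        rw [e1, mul_pow (D : ℝ) _ (2 * a), mul_pow ((1 / ((h : ℝ) / Fintype.card W)) ^ 2) _ a, ← pow_mul,
          two_mul q, pow_add, two_mul a, pow_add (D : ℝ)]
        ring

/-- R4 for programs with few computations. -/
theorem bad_bound (hE : Mds enc (4 * D)) (P : NProg (B × W) F Z S) {M : ℕ} (hM : Few P M) (hM1 : 1 ≤ M)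
    (g : Fin D → Equiv.Perm (Fin n))
    (x0 : Fin n × Fin m → B) (h e T a R q q' d : ℕ) (hX : Expands g a) (ha : 1 ≤ a) (hh : 0 < h)
    (hL : h + 1 ≤ Fintype.card W) (he : e < m) (hq' : q ≤ 2 ^ q') (hR : q' + d ≤ R) (r : ℝ)
    (hr : 0 < r) (hrT : (T : ℝ) ≤ (1 - r) * Fintype.card (B × W))
    (hrh : (m * h + e * Fintype.card W : ℝ) ≤ m * Fintype.card W * r / 2) :
    (Nat.card {I // CF (fine g) x0 R (tab enc I) ∧ ∃ (L : List (Fin S × ℕ × Fin S)) (c : List (B × W)), L.length ≤ q ∧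
        (∀ p ∈ L, p.2.1 ≤ 2 ^ d) ∧ RunL P I L c ∧ Fintype.card (B × W) ≤ (free c).card + T ∧
        a ≤ (comp enc g x0 h e R I (free c)).card} : ℝ) ≤
      (M : ℝ) ^ (2 * q) * errA n D m a R S q d e r ((h : ℝ) / Fintype.card W) * Nat.card (B × W → F) := by
  refine bad_bound_of enc P g x0 h e T a R q d ha r ((M : ℝ) ^ (2 * q))
    (fun _I hcf ⟨_L, _c, hq, hk, hc, hT, hcomp⟩ =>
      Pool.Agent.Helper6.BT.exists_inD enc P g x0 h e T a R hX ha hL he hcf hc hq hq' hk hR hT hcomp) ?_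
  intro i L1 L2 A h1 h2 _ hl1 hl2
  refine (card_inH enc hE P hM g x0 h e T i L1 L2 A h1 h2 hh r hr hrT hrh).trans ?_
  have h3 : ((M ^ L1.length : ℕ) : ℝ) * (M ^ L2.length : ℕ) ≤ (M : ℝ) ^ (2 * q) := by
    push_cast
    rw [two_mul, pow_add]
    have hM1' : (1 : ℝ) ≤ M := by exact_mod_cast hM1
    exact mul_le_mul (pow_le_pow_right₀ hM1' hl1) (pow_le_pow_right₀ hM1' hl2) (by positivity) (by positivity)
  have h4 : (0 : ℝ) ≤ (1 / ((h : ℝ) / Fintype.card W)) ^ (2 * A.card) * (4 * (m + 2) / (m * r) ^ 2) ^ A.card := by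
    positivity
  exact mul_le_mul_of_nonneg_right (mul_le_mul_of_nonneg_right h3 h4) (Nat.cast_nonneg _)

end net

end Pool.Agent.Helper96.BTN
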