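import Pool.Agent.Helper84.PH.Perms

/-!
# Most families of permutations expand
-/

set_option autoImplicit false

namespace Pool.Agent.Helper96.BTN

open Finset Pool.Agent.Helper74.NS Pool.Agent.Helper84.PH

theorem numbers2 (a : ℕ) : (8 * a * 2).choose a * (8 * a * 2).choose (4 * a) * 2 ^ a ≤ (2 * 2) ^ (15 * a) := by
  have h1 : (((8 * a * 2).choose a : ℕ) : ℝ) ≤ (16 * Real.exp 1) ^ a := by
    have h := choose_le 16 a
    rw [show 16 * a = 8 * a * 2 by ring] at h
    exact_mod_cast h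
  have h2 : (((8 * a * 2).choose (4 * a) : ℕ) : ℝ) ≤ (4 * Real.exp 1) ^ (4 * a) := by
    have h := choose_le 4 (4 * a)
    rw [show 4 * (4 * a) = 8 * a * 2 by ring] at h
    exact_mod_cast h
  have he := Real.exp_one_lt_d9
  have he0 := Real.exp_pos 1
  have h5 : Real.exp 1 ^ 5 < 256 := by
    calc Real.exp 1 ^ 5 < (2.7182818286 : ℝ) ^ 5 := pow_lt_pow_left₀ he he0.le (by norm_num)
      _ < 256 := by norm_num
  have h6 : (16 : ℝ) * Real.exp 1 * (4 * Real.exp 1) ^ 4 * 2 ≤ 4 ^ 15 := by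
    have e1 : (16 : ℝ) * Real.exp 1 * (4 * Real.exp 1) ^ 4 * 2 = 8192 * Real.exp 1 ^ 5 := by ring
    rw [e1]
    calc (8192 : ℝ) * Real.exp 1 ^ 5 ≤ 8192 * 256 := by linarith
      _ ≤ 4 ^ 15 := by norm_num
  have h7 : (((8 * a * 2).choose a : ℕ) : ℝ) * (((8 * a * 2).choose (4 * a) : ℕ) : ℝ) * 2 ^ a ≤
      (4 : ℝ) ^ (15 * a) := by
    calc (((8 * a * 2).choose a : ℕ) : ℝ) * (((8 * a * 2).choose (4 * a) : ℕ) : ℝ) * 2 ^ a
        ≤ (16 * Real.exp 1) ^ a * (4 * Real.exp 1) ^ (4 * a) * 2 ^ a :=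
          mul_le_mul_of_nonneg_right (mul_le_mul h1 h2 (Nat.cast_nonneg _) (by positivity)) (by positivity)
      _ = (16 * Real.exp 1 * (4 * Real.exp 1) ^ 4 * 2) ^ a := by
          rw [pow_mul, ← mul_pow, ← mul_pow]
      _ ≤ ((4 : ℝ) ^ 15) ^ a := pow_le_pow_left₀ (by positivity) h6 a
      _ = (4 : ℝ) ^ (15 * a) := by rw [← pow_mul]
  have h8 : (8 * a * 2).choose a * (8 * a * 2).choose (4 * a) * 2 ^ a ≤ 4 ^ (15 * a) := by exact_mod_cast h7
  exact h8

/-- All but a fraction `2 ^ (- a)` of the families expand. -/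
theorem most_perms (a : ℕ) (ha : 1 ≤ a) :
    Nat.card {g : Fin 15 → Equiv.Perm (Fin (8 * a * 2)) // ¬ Expands g a} * 2 ^ a ≤
      Nat.card (Fin 15 → Equiv.Perm (Fin (8 * a * 2))) := by
  classical
  set N := 8 * a * 2 with hN
  have hN8 : 8 * a ≤ N := Nat.le_mul_of_pos_right _ (by norm_num)
  have hcover : (univ.filter (fun g : Fin 15 → Equiv.Perm (Fin N) => ¬ Expands g a)) ⊆
      ((powersetCard a (univ : Finset (Fin N))) ×ˢ (powersetCard (4 * a) (univ : Finset (Fin N)))).biUnion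
        (fun p => Fintype.piFinset (fun _ : Fin 15 => into p.2 p.1)) := by
    intro g hg0
    have hg := (mem_filter.1 hg0).2
    unfold Expands at hg
    push Not at hg
    obtain ⟨X, hX, hlt⟩ := hg
    obtain ⟨Y, hYX, hYc⟩ := exists_subset_card_eq hX
    obtain ⟨Q, hQ, -, hQc⟩ := exists_subsuperset_card_eq
      (subset_univ (univ.filter (fun v => ∃ s, ∃ u ∈ X, g s u = v))) hlt.le
      (by rw [card_univ, Fintype.card_fin]; omega)
    rw [mem_biUnion]
    refine ⟨(Y, Q), ?_, ?_⟩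
    · rw [mem_product]
      exact ⟨mem_powersetCard.2 ⟨subset_univ _, hYc⟩, mem_powersetCard.2 ⟨subset_univ _, hQc⟩⟩
    · rw [Fintype.mem_piFinset]
      intro s
      exact mem_into.2 fun u hu => hQ (mem_filter.2 ⟨mem_univ _, s, u, hYX hu, rfl⟩)
  have h1 := card_le_card hcover
  have h2 := h1.trans card_biUnion_le
  have h3 : ∀ p ∈ (powersetCard a (univ : Finset (Fin N))) ×ˢ (powersetCard (4 * a) (univ : Finset (Fin N))),
      (Fintype.piFinset (fun _ : Fin 15 => into p.2 p.1)).card * (2 * 2) ^ (15 * a) ≤ N.factorial ^ 15 := by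
    intro p hp
    rw [mem_product] at hp
    have hc := (mem_powersetCard.1 hp.1).2
    have hq := (mem_powersetCard.1 hp.2).2
    have h4 := card_into p.2 p.1
    rw [hc, hq] at h4
    have h5 : (2 * 2) ^ a * (into p.2 p.1).card ≤ N.factorial := by
      have h6 : N ^ a = (4 * a) ^ a * (2 * 2) ^ a := by
        rw [← mul_pow, hN]
        congr 1
        ring
      rw [h6, mul_assoc] at h4
      exact Nat.le_of_mul_le_mul_left h4 (by positivity)
    rw [Fintype.card_piFinset]
    simp only [prod_const, card_univ, Fintype.card_fin]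
    calc (into p.2 p.1).card ^ 15 * (2 * 2) ^ (15 * a) = ((2 * 2) ^ a * (into p.2 p.1).card) ^ 15 := by
          generalize 2 * 2 = w
          ring
      _ ≤ N.factorial ^ 15 := Nat.pow_le_pow_left h5 15
  set bad := (univ.filter (fun g : Fin 15 → Equiv.Perm (Fin N) => ¬ Expands g a)).card with hbad
  have h5 : bad * (2 * 2) ^ (15 * a) ≤ (N.choose a * N.choose (4 * a)) * N.factorial ^ 15 := by
    calc bad * (2 * 2) ^ (15 * a)
        ≤ (∑ p ∈ (powersetCard a (univ : Finset (Fin N))) ×ˢ (powersetCard (4 * a) (univ : Finset (Fin N))),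
            (Fintype.piFinset (fun _ : Fin 15 => into p.2 p.1)).card) * (2 * 2) ^ (15 * a) :=
          Nat.mul_le_mul_right _ h2
      _ = ∑ p ∈ (powersetCard a (univ : Finset (Fin N))) ×ˢ (powersetCard (4 * a) (univ : Finset (Fin N))),
            (Fintype.piFinset (fun _ : Fin 15 => into p.2 p.1)).card * (2 * 2) ^ (15 * a) := by rw [sum_mul]
      _ ≤ ∑ _p ∈ (powersetCard a (univ : Finset (Fin N))) ×ˢ (powersetCard (4 * a) (univ : Finset (Fin N))),
            N.factorial ^ 15 := sum_le_sum h3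
      _ = (N.choose a * N.choose (4 * a)) * N.factorial ^ 15 := by
          rw [sum_const, card_product, card_powersetCard, card_powersetCard, card_univ, Fintype.card_fin,
            smul_eq_mul]
  have h6 : bad * 2 ^ a * (2 * 2) ^ (15 * a) ≤ N.factorial ^ 15 * (2 * 2) ^ (15 * a) := by
    calc bad * 2 ^ a * (2 * 2) ^ (15 * a) = bad * (2 * 2) ^ (15 * a) * 2 ^ a := by ring
      _ ≤ (N.choose a * N.choose (4 * a)) * N.factorial ^ 15 * 2 ^ a := Nat.mul_le_mul_right _ h5
      _ = (N.choose a * N.choose (4 * a) * 2 ^ a) * N.factorial ^ 15 := by ring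
      _ ≤ (2 * 2) ^ (15 * a) * N.factorial ^ 15 := Nat.mul_le_mul_right _ (numbers2 a)
      _ = N.factorial ^ 15 * (2 * 2) ^ (15 * a) := mul_comm _ _
  have h7 : bad * 2 ^ a ≤ N.factorial ^ 15 := Nat.le_of_mul_le_mul_right h6 (by positivity)
  have hu : Nat.card (Fin 15 → Equiv.Perm (Fin N)) = N.factorial ^ 15 := by
    rw [Nat.card_eq_fintype_card, Fintype.card_fun, Fintype.card_perm, Fintype.card_fin, Fintype.card_fin]
  rw [hu, Nat.card_eq_fintype_card, Fintype.card_subtype]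
  exact h7

end Pool.Agent.Helper96.BTN
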