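import Pool.Agent.Helper96.BT.Final
import Pool.Agent.Helper96.BTN.Perms
import Pool.Agent.Helper70.BTN.Final

/-!
# The theorem with clause (N)
-/

set_option autoImplicit false

namespace Pool.Agent.Helper96.BTN

open Finset Pool.Agent.Helper19.NF Pool.Agent.Helper74.NW Pool.Agent.Helper96.BT
open Pool.Agent.Helper96.PH (Det)
open Pool.Agent.Helper43.BT (evalCode)

/-- The theorem. -/
theorem main (s : ℕ) [NeZero s] (hs : 2 ^ 60 ≤ s) :
    ∃ G : Set (Fin 15 → Equiv.Perm (Fin (8 * s ^ 20 * 2))),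
      Nat.card {g // g ∉ G} * 2 ^ s ^ 20 ≤ Nat.card (Fin 15 → Equiv.Perm (Fin (8 * s ^ 20 * 2))) ∧
      ∀ g ∈ G, ∀ (K : Type) [Field K] [Fintype K] [Algebra (ZMod 2) K]
      (ω : Fin 15 × Fin (s ^ 13) → K) (x0 : Fin (8 * s ^ 20 * 2) × Fin (s ^ 13) → K),
      s ^ 2000 ≤ Fintype.card K → Function.Injective ω → Function.Injective x0 →
        -- deterministic programs
        (∀ (w S : ℕ) (ε θ : ℝ) (P : NProg (K × (Fin 60 → K)) (ZMod 2) (ZMod 2) S), 2 ^ w ≤ s → 1 / s ≤ ε → ε ≤ 1 →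
          1 / s ≤ θ → θ ≤ 1 → S ≤ 2 ^ s → Det P →
          (Nat.card {I : K × (Fin 60 → K) → ZMod 2 // ∃ l,
              P.Ends I l (out (evalCode ω) g x0 1 (2 * s) I) ∧ Rare ε w l} : ℝ) ≤
            Nat.card {I : K × (Fin 60 → K) → ZMod 2 // ∃ l z, P.Ends I l z ∧ Rare (ε / 2) w l} / 2 +
            θ * Nat.card (K × (Fin 60 → K) → ZMod 2)) ∧
        -- nondeterministic programs with few computations which are never wrong
        (∀ (w S M : ℕ) (ε : ℝ) (P : NProg (K × (Fin 60 → K)) (ZMod 2) (ZMod 2) S), 2 ^ w ≤ s → 1 / s ≤ ε → ε ≤ 1 →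
          S * M ≤ 2 ^ s →
          (∀ (I : K × (Fin 60 → K) → ZMod 2) (a b : Fin S) (t : ℕ),
            Nat.card {l : List (K × (Fin 60 → K)) // l.length = t ∧ P.Run I a l b} ≤ M) →
          (∀ I l z, P.Ends I l z → z = out (evalCode ω) g x0 1 (2 * s) I) →
          Nat.card {I : K × (Fin 60 → K) → ZMod 2 // ∃ l z, P.Ends I l z ∧ Rare ε w l} * s ≤
            Nat.card (K × (Fin 60 → K) → ZMod 2)) ∧
        -- short computations
        (∀ (w : ℕ) (ε : ℝ) (l : List (K × (Fin 60 → K))),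
          (l.length : ℝ) ≤ (1 - ε) * (w + 1) * Fintype.card (K × (Fin 60 → K)) → Rare ε w l) ∧
        -- the pushdown program
        ∃ (Q Γ : Type) (_ : Finite Q) (_ : Finite Γ) (P : PProg (K × (Fin 60 → K)) (ZMod 2) (ZMod 2) Q Γ),
          Nat.card Q ≤ Nat.card (K × (Fin 60 → K)) ^ 3 ∧ Nat.card Γ ≤ Nat.card (K × (Fin 60 → K)) ∧
          ∀ I, P.Outputs I (out (evalCode ω) g x0 1 (2 * s) I) ∧
            Nat.card {x // P.Asks I x} ^ 2 * Fintype.card K ≤ Nat.card (K × (Fin 60 → K)) ^ 2 := by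
  have hs1 : 1 ≤ s := le_trans (by norm_num) hs
  refine ⟨{g | Pool.Agent.Helper74.NS.Expands g (s ^ 20)}, most_perms (s ^ 20) (Nat.one_le_pow _ _ hs1),
    fun g hg K _ _ _ ω x0 hk hω hx0 => ?_⟩
  obtain ⟨h1, h2, h3⟩ := main_of s hs g hg K ω x0 hk hω hx0
  refine ⟨h1, ?_, h2, h3⟩
  intro w S M ε P hw hε hε1 hS hM hr
  exact Pool.Agent.Helper70.BTN.few_bound s hs g hg K ω x0 hk hω hx0 w S M ε P hw hε hε1 hS hM hr

end Pool.Agent.Helper96.BTN
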